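import Pool.Agent.Helper70.ML.St

/-!
# Project ML (MP_a2f62e_al): module ORB, the orbit lemma
-/

set_option autoImplicit false

namespace Pool.Agent.Helper16.ML

open Pool.Agent.Helper70.ML Pool.Agent.Helper75.MX

/-- ORB. -/
theorem hORB : StORB := by
  classical
  intro G X _ _ _ K H hHK x₀ _ f hf
  have : Fintype K := Fintype.ofFinite K
  set Φ : (X → ℝ) → (G → ℝ) := fun μ =>
    ((Nat.card H : ℝ))⁻¹ • ∑ k : K, μ ((k : G) • x₀) • L (k : G) f with hΦ
  have h3 : ∀ g ∈ K, ∀ μ : X → ℝ, L g (Φ μ) = Φ (fun x => μ (g⁻¹ • x)) := by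
    intro g hg μ
    simp only [hΦ]
    rw [L_smul, L_sum]
    congr 1
    refine Fintype.sum_equiv (Equiv.mulLeft (⟨g, hg⟩ : K)) _ _ fun k => ?_
    simp only [Equiv.coe_mulLeft, Subgroup.coe_mul]
    rw [L_smul, ← Helper75.MX.L_mul, mul_smul, inv_smul_smul]
  refine ⟨Φ, ?_, ?_, h3, ?_, ?_⟩
  · intro μ ν
    simp only [hΦ, Pi.add_apply, add_smul, Finset.sum_add_distrib, smul_add]
  · intro c μ
    simp only [hΦ, Pi.smul_apply, smul_eq_mul, mul_smul]
    rw [← Finset.smul_sum, smul_comm]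
  · intro μ hμ
    have hterm : ∀ k : K, μ ((k : G) • x₀) • L (k : G) f =
        if k ∈ H.subgroupOf K then f else 0 := by
      intro k
      obtain ⟨h1, h2⟩ := hμ k k.2
      by_cases hk : (k : G) ∈ H
      · rw [if_pos (Subgroup.mem_subgroupOf.2 hk), h1 hk, mem_stab.1 (hf hk), one_smul]
      · rw [if_neg (fun h => hk (Subgroup.mem_subgroupOf.1 h)), h2 hk, zero_smul]
    have hcard : (Finset.univ.filter fun k : K => k ∈ H.subgroupOf K).card = Nat.card H := by
      rw [← Nat.card_congr (Subgroup.subgroupOfEquivOfLe hHK).toEquiv, Nat.card_eq_fintype_card,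
        Fintype.card_subtype]
    have hpos : (Nat.card H : ℝ) ≠ 0 := by
      exact_mod_cast Nat.card_pos.ne'
    simp only [hΦ, hterm]
    rw [← Finset.sum_filter, Finset.sum_const, hcard, ← Nat.cast_smul_eq_nsmul ℝ, smul_smul,
      inv_mul_cancel₀ hpos, one_smul]
  · intro μ c hc g hg
    rw [mem_stab, h3 g hg]
    simp only [hΦ]
    congr 1
    refine Finset.sum_congr rfl fun k _ => ?_
    rw [← mul_smul, hc _ (K.mul_mem (K.inv_mem hg) k.2), hc _ k.2]

end Pool.Agent.Helper16.ML
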